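import Mathlib

namespace Pool.Agent.Results.MP_13ba09_nt.Yes

open RatFunc

def Portrait {α : Type} (f : α → α) (y : α) (M N : ℕ) : Prop :=
  f^[M + N] y = f^[M] y ∧ (∀ n, 0 < n → n < N → f^[M + n] y ≠ f^[M] y) ∧
    (M = 0 ∨ f^[M - 1] y ∉ Function.periodicPts f)

def Exc {K : Type} [Field K] (x : RatFunc K) (M N d : ℕ) : Prop :=
  (∀ a : K, x ≠ C a) ∧ 1 ≤ N ∧ 2 ≤ d ∧ ¬ ∃ c : K, x.denom.eval c ≠ 0 ∧
    Portrait (fun z => z ^ d + c) (x.num.eval c / x.denom.eval c) M N

theorem result (K : Type) [Field K] [IsAlgClosed K] [CharZero K] :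
    ∃ (p : Polynomial K) (M N d : ℕ), Exc (algebraMap _ (RatFunc K) p) M N d ∧
      (algebraMap _ (RatFunc K) p, M, N, d) ≠ (-X, 1, 1, 2) ∧
      (algebraMap _ (RatFunc K) p, M, N, d) ≠ (X + 1, 1, 2, 2) := by
  refine ⟨2 * Polynomial.X + 2, 1, 2, 2, ⟨fun a h => ?_, by norm_num, le_rfl, ?_⟩, by simp, fun h => ?_⟩
  · rw [← algebraMap_C] at h
    have := congrArg (Polynomial.coeff · 1) (algebraMap_injective K h)
    simp [Polynomial.coeff_C, Polynomial.coeff_X] at this
  · rintro ⟨c, -, h1, h2, h3⟩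
    simp only [num_algebraMap, denom_algebraMap, Polynomial.eval_one, div_one, Polynomial.eval_add,
      Polynomial.eval_mul, Polynomial.eval_X, Polynomial.eval_ofNat] at h1 h2 h3
    replace h2 := h2 1 one_pos one_lt_two
    replace h3 := h3.resolve_left one_ne_zero
    simp only [Function.iterate_succ, Function.iterate_zero, Function.comp, id] at h1 h2
    generalize hx : 2 * c + 2 = x at h1 h2 h3
    have k1 : (x ^ 2 + c) ^ 2 + (x ^ 2 + c) + c + 1 = 0 := by
      apply mul_left_cancel₀ (sub_ne_zero.2 h2)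
      linear_combination h1
    have k2 : (x ^ 2 + x + c + 1) * (x ^ 2 - x + c + 1) = 0 := by linear_combination k1
    rcases mul_eq_zero.1 k2 with k | k
    · refine h3 ⟨2, two_pos, ?_⟩
      change (x ^ 2 + c) ^ 2 + c = x
      linear_combination (x ^ 2 - x + c) * k
    · have : (c + 1) * (4 * c + 3) = 0 := by rw [← hx] at k; linear_combination k
      rcases mul_eq_zero.1 this with k | k
      · obtain rfl : c = -1 := by linear_combination k
        refine h3 ⟨2, two_pos, ?_⟩
        change (x ^ 2 + -1) ^ 2 + -1 = x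
        rw [← hx]; norm_num
      · obtain rfl : c = -3 / 4 := by linear_combination k / 4
        exact h2 (by rw [← hx]; norm_num)
  · have h1 : algebraMap _ (RatFunc K) (2 * Polynomial.X + 2 : Polynomial K) =
        algebraMap _ (RatFunc K) (Polynomial.X + 1 : Polynomial K) := by
      refine (Prod.ext_iff.1 h).1.trans ?_; simp
    have := congrArg (Polynomial.eval 0) (algebraMap_injective K h1)
    norm_num at this

end Pool.Agent.Results.MP_13ba09_nt.Yes
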